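import Mathlib
import Pool.Agent.Helper162.Arc.PA

/-!
# Products of two continua are not always λ-connected

Let `P` be the pseudo-arc. For every continuum `Y`, no hereditarily decomposable subcontinuum of
`P × Y` contains two points with different first coordinates. In particular `P × P` is a product of
two nondegenerate continua that is not λ-connected.
-/

set_option autoImplicit false

open Set Topology

namespace Pool.Agent.Results.MP_3d59a4_gt.PseudoArcProductH47

variable {X : Type} [TopologicalSpace X]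

/-- `K` is a subcontinuum: it is compact and connected (and nonempty). -/
def IsSubcontinuum (K : Set X) : Prop := IsCompact K ∧ IsConnected K

/-- `K` is the union of two proper subcontinua. -/
def Decomposable (K : Set X) : Prop :=
  ∃ A B : Set X, IsSubcontinuum A ∧ IsSubcontinuum B ∧ A ≠ K ∧ B ≠ K ∧ A ∪ B = K

/-- `K` is a subcontinuum, and every nondegenerate subcontinuum of `K` is decomposable. -/
def HereditarilyDecomposable (K : Set X) : Prop :=
  IsSubcontinuum K ∧ ∀ L ⊆ K, IsSubcontinuum L → L.Nontrivial → Decomposable L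

/-- `X` is λ-connected: any two points of `X` lie in a hereditarily decomposable subcontinuum. -/
def LambdaConnected (X : Type) [TopologicalSpace X] : Prop :=
  ∀ p q : X, ∃ K : Set X, HereditarilyDecomposable K ∧ p ∈ K ∧ q ∈ K

/-- The intersection of a nonempty chain of continua is connected. -/
theorem isPreconnected_sInter [T2Space X] {c : Set (Set X)} (hc : IsChain (· ⊆ ·) c)
    (hne : c.Nonempty) (hcomp : ∀ s ∈ c, IsCompact s) (hconn : ∀ s ∈ c, IsPreconnected s) :
    IsPreconnected (⋂₀ c) := by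
  obtain ⟨s0, hs0⟩ := hne
  have hcl : IsClosed (⋂₀ c) := isClosed_sInter (fun s hs => (hcomp s hs).isClosed)
  have hIc : IsCompact (⋂₀ c) := (hcomp s0 hs0).of_isClosed_subset hcl (sInter_subset_of_mem hs0)
  rw [isPreconnected_iff_subset_of_fully_disjoint_closed hcl]
  intro u v hu hv huv hd
  by_contra hcon
  rw [not_or, not_subset, not_subset] at hcon
  obtain ⟨⟨x, hx, hxu⟩, ⟨y, hy, hyv⟩⟩ := hcon
  obtain ⟨U, V, hU, hV, hUu, hVv, hUV⟩ := SeparatedNhds.of_isCompact_isCompact
    (hIc.inter_right hu) (hIc.inter_right hv)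
    (hd.mono inter_subset_right inter_subset_right)
  have hcover : ⋂₀ c ⊆ U ∪ V := by
    intro z hz
    rcases huv hz with h | h
    · exact Or.inl (hUu ⟨hz, h⟩)
    · exact Or.inr (hVv ⟨hz, h⟩)
  have hdir : Directed (· ⊇ ·) (fun s : c => (s : Set X)) := by
    intro a b
    rcases hc.total a.2 b.2 with h | h
    · exact ⟨a, Subset.rfl, h⟩
    · exact ⟨b, h, Subset.rfl⟩
  have : Nonempty c := ⟨⟨s0, hs0⟩⟩
  obtain ⟨⟨s, hs⟩, hsUV⟩ := exists_subset_nhds_of_isCompact' hdir (fun s => hcomp s s.2)
    (fun s => (hcomp s s.2).isClosed) (U := U ∪ V) (fun z hz => by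
      apply (hU.union hV).mem_nhds
      apply hcover
      rw [sInter_eq_iInter]
      exact hz)
  have hxs : x ∈ s := hx s hs
  have hys : y ∈ s := hy s hs
  have hxV : x ∈ V := hVv ⟨hx, (huv hx).resolve_left hxu⟩
  have hyU : y ∈ U := hUu ⟨hy, (huv hy).resolve_right hyv⟩
  obtain ⟨z, _, hzU, hzV⟩ := hconn s hs U V hU hV hsUV ⟨y, hys, hyU⟩ ⟨x, hxs, hxV⟩
  exact disjoint_left.1 hUV hzU hzV

/-- A minimal subcontinuum of `K` with the same image as `K`. -/
theorem exists_minimal [T2Space X] {Z : Type} [TopologicalSpace Z] [T2Space Z] {f : X → Z}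
    (hf : Continuous f) {K : Set X} (hK : IsSubcontinuum K) :
    ∃ L ⊆ K, IsSubcontinuum L ∧ f '' L = f '' K ∧
      ∀ N ⊆ L, IsSubcontinuum N → f '' N = f '' K → N = L := by
  obtain ⟨L, hLK, hL⟩ := zorn_superset_nonempty
    {L : Set X | IsCompact L ∧ IsConnected L ∧ f '' L = f '' K}
    (by
      intro c hc hchain hne
      obtain ⟨s0, hs0⟩ := hne
      have hcpt : IsCompact (⋂₀ c) := (hc hs0).1.of_isClosed_subset
        (isClosed_sInter (fun s hs => (hc hs).1.isClosed)) (sInter_subset_of_mem hs0)
      have himg : f '' (⋂₀ c) = f '' K := by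
        apply Subset.antisymm
        · rw [← (hc hs0).2.2]
          exact image_mono (sInter_subset_of_mem hs0)
        · rintro z hz
          have hdir : Directed (· ⊇ ·) (fun s : c => (s : Set X) ∩ f ⁻¹' {z}) := by
            intro a b
            rcases hchain.total a.2 b.2 with h | h
            · exact ⟨a, Subset.rfl, inter_subset_inter_left _ h⟩
            · exact ⟨b, inter_subset_inter_left _ h, Subset.rfl⟩
          have : Nonempty c := ⟨⟨s0, hs0⟩⟩
          obtain ⟨x, hx⟩ := IsCompact.nonempty_iInter_of_directed_nonempty_isCompact_isClosed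
            (fun s : c => (s : Set X) ∩ f ⁻¹' {z}) hdir
            (fun s => by
              have : z ∈ f '' (s : Set X) := by rw [(hc s.2).2.2]; exact hz
              obtain ⟨x, hx, hxz⟩ := this
              exact ⟨x, hx, hxz⟩)
            (fun s => (hc s.2).1.inter_right (isClosed_singleton.preimage hf))
            (fun s => (hc s.2).1.isClosed.inter (isClosed_singleton.preimage hf))
          rw [mem_iInter] at hx
          exact ⟨x, fun s hs => (hx ⟨s, hs⟩).1, (hx ⟨s0, hs0⟩).2⟩
      refine ⟨⋂₀ c, ⟨hcpt, ⟨?_, ?_⟩, himg⟩, fun s hs => sInter_subset_of_mem hs⟩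
      · have : (f '' (⋂₀ c)).Nonempty := by
          rw [himg]; exact hK.2.nonempty.image f
        exact this.of_image
      · exact isPreconnected_sInter hchain ⟨s0, hs0⟩ (fun s hs => (hc hs).1)
          (fun s hs => (hc hs).2.1.isPreconnected))
    K ⟨hK.1, hK.2, rfl⟩
  refine ⟨L, hLK, ⟨hL.prop.1, hL.prop.2.1⟩, hL.prop.2.2, ?_⟩
  intro N hNL h1 h2
  exact Subset.antisymm hNL (hL.le_of_le ⟨h1.1, h1.2, h2⟩ hNL)

/-- A nondegenerate image of a hereditarily decomposable continuum is decomposable. -/
theorem image_decomposable [T2Space X] {Z : Type} [TopologicalSpace Z] [T2Space Z] {f : X → Z}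
    (hf : Continuous f) {K : Set X} (hK : HereditarilyDecomposable K)
    (hnt : (f '' K).Nontrivial) : Decomposable (f '' K) := by
  obtain ⟨L, hLK, hL, hLim, hmin⟩ := exists_minimal hf hK.1
  have hLnt : L.Nontrivial := by
    rw [← hLim] at hnt
    obtain ⟨_, ⟨a, ha, rfl⟩, _, ⟨b, hb, rfl⟩, hab⟩ := hnt
    exact ⟨a, ha, b, hb, fun h => hab (by rw [h])⟩
  obtain ⟨A, B, hA, hB, hAL, hBL, hAB⟩ := hK.2 L hLK hL hLnt
  have hAL' : A ⊆ L := by rw [← hAB]; exact subset_union_left
  have hBL' : B ⊆ L := by rw [← hAB]; exact subset_union_right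
  refine ⟨f '' A, f '' B, ⟨hA.1.image hf, hA.2.image f hf.continuousOn⟩,
    ⟨hB.1.image hf, hB.2.image f hf.continuousOn⟩, ?_, ?_, ?_⟩
  · exact fun h => hAL (hmin A hAL' hA h)
  · exact fun h => hBL (hmin B hBL' hB h)
  · rw [← image_union, hAB, hLim]

/-- There is a nondegenerate metric continuum `P` such that for every metric continuum `Y` no
hereditarily decomposable subcontinuum of `P × Y` contains two points with different first
coordinates; in particular `P × Y` is not λ-connected. -/
theorem result : ∃ (P : Type) (_ : MetricSpace P) (_ : CompactSpace P) (_ : ConnectedSpace P),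
    Nontrivial P ∧ ∀ (Y : Type) [MetricSpace Y] [CompactSpace Y] [ConnectedSpace Y],
      (∀ K : Set (P × Y), HereditarilyDecomposable K →
        ∀ p ∈ K, ∀ q ∈ K, p.1 = q.1) ∧ ¬ LambdaConnected (P × Y) := by
  refine ⟨Pool.Agent.Helper162.Arc.PA, TopologicalSpace.metrizableSpaceMetric _, inferInstance,
    inferInstance, inferInstance, ?_⟩
  intro Y _ _ _
  have key : ∀ K : Set (Pool.Agent.Helper162.Arc.PA × Y), HereditarilyDecomposable K →
        ∀ p ∈ K, ∀ q ∈ K, p.1 = q.1 := by
    intro K hK p hp q hq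
    by_contra hne
    have hdec := image_decomposable (f := Prod.fst) continuous_fst hK
      ⟨p.1, ⟨p, hp, rfl⟩, q.1, ⟨q, hq, rfl⟩, hne⟩
    obtain ⟨A, B, hA, hB, h1, h2, h3⟩ := hdec
    refine Pool.Agent.Helper162.Arc.pa_hi (C := Prod.fst '' K)
      ⟨hK.1.1.image continuous_fst, hK.1.2.image _ continuous_fst.continuousOn⟩
      ⟨A, B, hA, hB, ?_, ?_, h1, h2, h3⟩
    · rw [← h3]; exact subset_union_left
    · rw [← h3]; exact subset_union_right
  refine ⟨key, fun h => ?_⟩
  obtain ⟨a, b, hab⟩ := exists_pair_ne Pool.Agent.Helper162.Arc.PA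
  obtain ⟨y⟩ := (inferInstance : Nonempty Y)
  obtain ⟨K, hK, h1, h2⟩ := h (a, y) (b, y)
  exact hab (key K hK _ h1 _ h2)

end Pool.Agent.Results.MP_3d59a4_gt.PseudoArcProductH47
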